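import Mathlib

/-!
# TN: the group ring step

If `A(t) y = B(t)` on a set where no non-zero polynomial in `t` vanishes identically, and `y` is
integral over the polynomials in `t`, then `A` divides `B`.
-/

set_option autoImplicit false

namespace Pool.Agent.Helper6.TN

open MvPolynomial

/-- in an integrally closed domain: if `B ^ m + ∑ c_i A ^ (m - i) B ^ i = 0` then `A ∣ B` -/
theorem dvd_of_monic' {R : Type*} [CommRing R] [IsDomain R] [IsIntegrallyClosed R] (L : Type*)
    [Field L] [Algebra R L] [IsFractionRing R L] (A B : R)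
    (hA : A ≠ 0) (p : Polynomial R) (hp : p.Monic)
    (h : ∑ i ∈ Finset.range (p.natDegree + 1), p.coeff i * A ^ (p.natDegree - i) * B ^ i = 0) :
    A ∣ B := by
  have hA' : algebraMap R L A ≠ 0 := fun h0 =>
    hA (IsFractionRing.injective R L (by rw [h0, map_zero]))
  have hint : IsIntegral R (algebraMap R L B / algebraMap R L A) := by
    refine ⟨p, hp, ?_⟩
    rw [Polynomial.eval₂_eq_sum_range]
    have h1 := congrArg (algebraMap R L) h
    rw [map_sum, map_zero] at h1
    have h2 : algebraMap R L A ^ p.natDegree *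
        ∑ i ∈ Finset.range (p.natDegree + 1), algebraMap R L (p.coeff i) *
          (algebraMap R L B / algebraMap R L A) ^ i = 0 := by
      rw [← h1, Finset.mul_sum]
      refine Finset.sum_congr rfl fun i hi => ?_
      have hi' : i ≤ p.natDegree := Nat.lt_succ_iff.1 (Finset.mem_range.1 hi)
      rw [map_mul, map_mul, map_pow, map_pow, div_pow]
      have h3 : algebraMap R L A ^ p.natDegree =
          algebraMap R L A ^ (p.natDegree - i) * algebraMap R L A ^ i := by
        rw [← pow_add, Nat.sub_add_cancel hi']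
      rw [h3]
      field_simp
    exact (mul_eq_zero.1 h2).resolve_left (pow_ne_zero _ hA')
  obtain ⟨Q, hQ⟩ := IsIntegrallyClosed.algebraMap_eq_of_integral hint
  refine ⟨Q, IsFractionRing.injective R L ?_⟩
  rw [map_mul, hQ, mul_div_cancel₀ _ hA']

theorem dvd_of_monic {R : Type*} [CommRing R] [IsDomain R] [IsIntegrallyClosed R] (A B : R)
    (hA : A ≠ 0) (p : Polynomial R) (hp : p.Monic)
    (h : ∑ i ∈ Finset.range (p.natDegree + 1), p.coeff i * A ^ (p.natDegree - i) * B ^ i = 0) :
    A ∣ B :=
  dvd_of_monic' (FractionRing R) A B hA p hp h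

/-- **The group ring step.** -/
theorem dvd_of_rel {K : Type*} [Field K] {σ τ : Type*} (E : Set σ) (t : σ → τ → K)
    (hE : ∀ P : MvPolynomial τ K, (∀ x ∈ E, eval (t x) P = 0) → P = 0)
    (y : σ → K) (A B : MvPolynomial τ K) (hA : A ≠ 0)
    (hAB : ∀ x ∈ E, eval (t x) A * y x = eval (t x) B)
    (p : Polynomial (MvPolynomial τ K)) (hp : p.Monic)
    (hint : ∀ x ∈ E, (p.map (eval (t x))).eval (y x) = 0) :
    ∃ Q, B = A * Q ∧ ∀ x ∈ E, eval (t x) A ≠ 0 → y x = eval (t x) Q := by
  classical
  have h : A ∣ B := by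
    refine dvd_of_monic A B hA p hp (hE _ fun x hx => ?_)
    have h1 := hint x hx
    rw [Polynomial.eval_map, Polynomial.eval₂_eq_sum_range] at h1
    rw [map_sum, ← mul_zero (eval (t x) A ^ p.natDegree), ← h1, Finset.mul_sum]
    refine Finset.sum_congr rfl fun i hi => ?_
    have hi' : i ≤ p.natDegree := Nat.lt_succ_iff.1 (Finset.mem_range.1 hi)
    rw [map_mul, map_mul, map_pow, map_pow, ← hAB x hx, mul_pow]
    have h3 : eval (t x) A ^ p.natDegree =
        eval (t x) A ^ (p.natDegree - i) * eval (t x) A ^ i := by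
      rw [← pow_add, Nat.sub_add_cancel hi']
    rw [h3]
    ring
  obtain ⟨Q, hQ⟩ := h
  refine ⟨Q, hQ, fun x hx h0 => ?_⟩
  have h1 := hAB x hx
  rw [hQ, map_mul] at h1
  exact mul_left_cancel₀ h0 h1

end Pool.Agent.Helper6.TN
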